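import Mathlib

/-!
# MP_c44e76_an, Q1: the inverse of a closed relation containing the diagonal

If `G` is a non-empty closed relation on a non-empty compact Hausdorff space `X`, contains the
diagonal and has the (2,2)-shadowing property, then so does the inverse relation.

Idea: reverse a finite piece of a pseudo-orbit of the inverse relation, prolong it by a constant
sequence (allowed since the diagonal lies in `G`), shadow it by a trajectory of `G`, reverse again,
and use compactness of the product space.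
-/

namespace Pool.Agent.Results.MP_c44e76_an.InverseShadowing

open Set Uniformity Filter

universe u

variable {X : Type u}

/-- `D(G)`: the points `x` with `G(x)` non-empty. -/
def Dom (G : Set (X × X)) : Set X := {x | ∃ y, (x, y) ∈ G}

/-- The inverse relation. -/
def Inv (G : Set (X × X)) : Set (X × X) := {p | (p.2, p.1) ∈ G}

/-- `x` is a trajectory of `G`. -/
def IsTrajectory (G : Set (X × X)) (x : ℕ → X) : Prop := ∀ n, (x n, x (n + 1)) ∈ G

/-- `x` is a `(V,2)`-pseudo-orbit of `G`: a sequence in `D(G)` such that for every `n`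
some `y ∈ G(x n)` has `(x (n+1), y) ∈ V`. -/
def IsPseudoOrbit2 (G V : Set (X × X)) (x : ℕ → X) : Prop :=
  (∀ n, x n ∈ Dom G) ∧ ∀ n, ∃ y, (x n, y) ∈ G ∧ (x (n + 1), y) ∈ V

/-- The point `y` (legal, since it starts a trajectory) `(U,2)`-shadows `x`: some trajectory `t`
of `y` has `(x n, t n) ∈ U` for every `n`. -/
def Shadows2 (G U : Set (X × X)) (y : X) (x : ℕ → X) : Prop :=
  ∃ t : ℕ → X, t 0 = y ∧ IsTrajectory G t ∧ ∀ n, (x n, t n) ∈ U

/-- The (2,2)-shadowing property. -/
def HasShadowing22 [UniformSpace X] (G : Set (X × X)) : Prop :=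
  ∀ U ∈ 𝓤 X, ∃ V ∈ 𝓤 X, ∀ x : ℕ → X, IsPseudoOrbit2 G V x → ∃ y, Shadows2 G U y x

/-- Finite version: from a pseudo-orbit of the inverse relation one gets finite trajectories. -/
lemma finite_piece [UniformSpace X] (G : Set (X × X)) (hd : diagonal X ⊆ G)
    (U V : Set (X × X)) (hVsymm : ∀ a b, (a, b) ∈ V → (b, a) ∈ V) (hVrefl : ∀ a, (a, a) ∈ V)
    (hsh : ∀ x : ℕ → X, IsPseudoOrbit2 G V x → ∃ y, Shadows2 G U y x)
    (x : ℕ → X) (y : ℕ → X) (hy : ∀ n, (y n, x n) ∈ G) (hxy : ∀ n, (x (n + 1), y n) ∈ V)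
    (N : ℕ) :
    ∃ s : ℕ → X, (∀ j < N, (s (j + 1), s j) ∈ G) ∧ (x 0, s 0) ∈ U ∧
      ∀ j < N, (y j, s (j + 1)) ∈ U := by
  classical
  let w : ℕ → X := fun k => if k < N then y (N - 1 - k) else x 0
  have hps : IsPseudoOrbit2 G V w := by
    refine ⟨fun n => ⟨w n, hd rfl⟩, fun k => ?_⟩
    by_cases h1 : k + 1 < N
    · refine ⟨x (N - 1 - k), ?_, ?_⟩
      · have : w k = y (N - 1 - k) := by simp [w, show k < N by omega]
        rw [this]; exact hy _
      · have h2 : w (k + 1) = y (N - 1 - (k + 1)) := by simp [w, h1]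
        rw [h2]
        have h3 : N - 1 - k = (N - 1 - (k + 1)) + 1 := by omega
        rw [h3]
        exact hVsymm _ _ (hxy _)
    · by_cases h4 : k + 1 = N
      · refine ⟨x 0, ?_, ?_⟩
        · have : w k = y 0 := by
            have h5 : N - 1 - k = 0 := by omega
            simp [w, show k < N by omega, h5]
          rw [this]; exact hy _
        · have : w (k + 1) = x 0 := by simp [w, h4]
          rw [this]; exact hVrefl _
      · refine ⟨x 0, ?_, ?_⟩
        · have : w k = x 0 := by simp [w, show ¬ k < N by omega]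
          rw [this]; exact hd rfl
        · have : w (k + 1) = x 0 := by simp [w, show ¬ k + 1 < N by omega]
          rw [this]; exact hVrefl _
  obtain ⟨_, t, -, ht, hwt⟩ := hsh w hps
  refine ⟨fun j => t (N - j), ?_, ?_, ?_⟩
  · intro j hj
    have h1 := ht (N - (j + 1))
    have h2 : N - (j + 1) + 1 = N - j := by omega
    rw [h2] at h1
    exact h1
  · have h1 := hwt N
    have h2 : w N = x 0 := by simp [w]
    rw [h2] at h1
    simpa using h1
  · intro j hj
    have h1 := hwt (N - (j + 1))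
    have h2 : w (N - (j + 1)) = y j := by
      have h3 : N - 1 - (N - (j + 1)) = j := by omega
      simp only [w]
      rw [if_pos (by omega), h3]
    rw [h2] at h1
    exact h1

/-- **Q1, positive answer.** -/
theorem result {X : Type u} [UniformSpace X] [CompactSpace X] [T2Space X] [Nonempty X]
    (G : Set (X × X)) (_hne : G.Nonempty) (hcl : IsClosed G) (hd : diagonal X ⊆ G)
    (hG : HasShadowing22 G) : HasShadowing22 (Inv G) := by
  intro U hU
  obtain ⟨U₁, ⟨hU₁, hU₁cl⟩, hU₁U⟩ := uniformity_hasBasis_closed.mem_iff.1 hU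
  obtain ⟨U₂, hU₂, hU₂U₁⟩ := comp_mem_uniformity_sets hU₁
  obtain ⟨V₀, hV₀, hsh₀⟩ := hG U₂ hU₂
  obtain ⟨V, hV, hVsymm, hVsub⟩ := symm_of_uniformity (Filter.inter_mem hV₀ hU₂)
  have hVV₀ : V ⊆ V₀ := fun p hp => (hVsub hp).1
  have hVU₂ : V ⊆ U₂ := fun p hp => (hVsub hp).2
  have hsh : ∀ x : ℕ → X, IsPseudoOrbit2 G V x → ∃ y, Shadows2 G U₂ y x := by
    intro x hx
    exact hsh₀ x ⟨hx.1, fun n => let ⟨y, h1, h2⟩ := hx.2 n; ⟨y, h1, hVV₀ h2⟩⟩
  refine ⟨V, hV, fun x hx => ?_⟩
  choose y hy hxy using hx.2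
  have hy' : ∀ n, (y n, x n) ∈ G := hy
  have key := finite_piece G hd U₂ V (fun a b h => by haveI := hVsymm; exact SetRel.symm V h)
    (fun a => refl_mem_uniformity hV) hsh x y hy' hxy
  -- compactness
  let K : ℕ → Set (ℕ → X) := fun N =>
    {s | (∀ j < N, (s (j + 1), s j) ∈ G) ∧ ∀ j ≤ N, (x j, s j) ∈ U₁}
  have hKcl : ∀ N, IsClosed (K N) := by
    intro N
    have : K N = (⋂ j, ⋂ (_ : j < N), {s : ℕ → X | (s (j + 1), s j) ∈ G}) ∩
        ⋂ j, ⋂ (_ : j ≤ N), {s : ℕ → X | (x j, s j) ∈ U₁} := by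
      ext s; simp [K]
    rw [this]
    refine IsClosed.inter ?_ ?_
    · refine isClosed_iInter fun j => isClosed_iInter fun _ => ?_
      exact hcl.preimage (by fun_prop : Continuous fun s : ℕ → X => (s (j + 1), s j))
    · refine isClosed_iInter fun j => isClosed_iInter fun _ => ?_
      exact hU₁cl.preimage (by fun_prop : Continuous fun s : ℕ → X => (x j, s j))
  have hKne : ∀ N, (K N).Nonempty := by
    intro N
    obtain ⟨s, hs1, hs2, hs3⟩ := key N
    refine ⟨s, hs1, ?_⟩
    intro j hj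
    rcases Nat.eq_zero_or_pos j with h0 | h0
    · subst h0
      exact hU₂U₁ ⟨x 0, refl_mem_uniformity hU₂, hs2⟩
    · obtain ⟨i, rfl⟩ : ∃ i, j = i + 1 := ⟨j - 1, by omega⟩
      exact hU₂U₁ ⟨y i, hVU₂ (hxy i), hs3 i (by omega)⟩
  have hKanti : ∀ N, K (N + 1) ⊆ K N := by
    intro N s hs
    exact ⟨fun j hj => hs.1 j (by omega), fun j hj => hs.2 j (by omega)⟩
  obtain ⟨s, hs⟩ := IsCompact.nonempty_iInter_of_sequence_nonempty_isCompact_isClosed K hKanti hKne
    (hKcl 0).isCompact hKcl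
  have hs' : ∀ N, s ∈ K N := fun N => mem_iInter.1 hs N
  refine ⟨s 0, s, rfl, fun n => ?_, fun n => hU₁U ((hs' n).2 n le_rfl)⟩
  exact (hs' (n + 1)).1 n (by omega)

end Pool.Agent.Results.MP_c44e76_an.InverseShadowing
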